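import Mathlib

/-!
First moment upper bound for the dimension of a random set under convergence in law (general
form), for DP-LIMU.
-/

namespace Pool.Agent.W462.DPL

open MeasureTheory Filter Topology
open scoped ENNReal NNReal

theorem upperG {Ω : Type*} [TopologicalSpace Ω] [MeasurableSpace Ω] [OpensMeasurableSpace Ω]
    [HasOuterApproxClosed Ω] {t : ℝ} (ht : 0 < t) {μs : ℕ → ProbabilityMeasure Ω}
    {μ : ProbabilityMeasure Ω} (hμ : Tendsto μs atTop (𝓝 μ)) (S : Ω → Set ℂ)
    {ι : ℕ → Type} [∀ m, Fintype (ι m)] (U : ∀ m, ι m → Set ℂ)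
    (H : ∀ m, ι m → Set Ω) (hHo : ∀ m i, IsOpen (H m i))
    (hS : ∀ m i ω, (S ω ∩ U m i).Nonempty → ω ∈ H m i)
    (r : ℕ → ℝ≥0∞) (hr : Tendsto r atTop (𝓝 0)) (hUr : ∀ m i, Metric.ediam (U m i) ≤ r m)
    (hA : ∀ m ω, S ω ⊆ ⋃ i, U m i) (p : ∀ m, ι m → ℝ≥0∞)
    (hp : ∀ m i, ∃ᶠ n in atTop, (μs n : Measure Ω) (H m i) ≤ p m i)
    (hlim : Tendsto (fun m => ∑ i, Metric.ediam (U m i) ^ t * p m i) atTop (𝓝 0)) :
    ∀ᵐ ω ∂(μ : Measure Ω), dimH (S ω) ≤ ENNReal.ofReal t := by
  classical
  set Z : ℕ → Ω → ℝ≥0∞ := fun m K =>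
    ∑ i, (H m i).indicator (fun _ => Metric.ediam (U m i) ^ t) K with hZ
  have hZm : ∀ m, Measurable (Z m) := by
    intro m
    apply Finset.measurable_sum
    intro i _
    exact measurable_const.indicator (hHo m i).measurableSet
  have hZi : ∀ m, ∫⁻ K, Z m K ∂(μ : Measure Ω) ≤
      ∑ i, Metric.ediam (U m i) ^ t * p m i := by
    intro m
    rw [hZ]
    simp only
    rw [lintegral_finsetSum _ (fun i _ => measurable_const.indicator (hHo m i).measurableSet)]
    apply Finset.sum_le_sum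
    intro i _
    rw [lintegral_indicator (hHo m i).measurableSet, setLIntegral_const]
    gcongr
    exact (ProbabilityMeasure.le_liminf_measure_open_of_tendsto hμ (hHo m i)).trans
      (liminf_le_of_frequently_le (hp m i))
  have h0 : ∫⁻ K, liminf (fun m => Z m K) atTop ∂(μ : Measure Ω) = 0 := by
    rw [← nonpos_iff_eq_zero]
    refine (lintegral_liminf_le hZm).trans ?_
    refine (liminf_le_liminf (Eventually.of_forall hZi)).trans ?_
    rw [hlim.liminf_eq]
  rw [lintegral_eq_zero_iff (Measurable.liminf hZm)] at h0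
  filter_upwards [h0] with K hK
  have hK' : liminf (fun m => Z m K) atTop = 0 := hK
  have h1 : μH[t] (S K) = 0 := by
    rw [← nonpos_iff_eq_zero, ← hK']
    have h2 := Measure.hausdorffMeasure_le_liminf_sum (l := atTop) t (S K) r hr
      (fun m i => if K ∈ H m i then U m i else ∅) (Eventually.of_forall fun m i => by
        by_cases h : K ∈ H m i
        · rw [if_pos h]; exact hUr m i
        · rw [if_neg h]; simp) (Eventually.of_forall fun m => by
        intro x hx
        obtain ⟨i, hi⟩ := Set.mem_iUnion.mp (hA m K hx)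
        refine Set.mem_iUnion.mpr ⟨i, ?_⟩
        rw [if_pos (hS m i K ⟨x, hx, hi⟩)]
        exact hi)
    refine h2.trans (liminf_le_liminf (Eventually.of_forall fun m => ?_))
    apply le_of_eq
    simp only [hZ]
    apply Finset.sum_congr rfl
    intro i _
    by_cases h : K ∈ H m i
    · rw [if_pos h, Set.indicator_of_mem h]
    · rw [if_neg h, Set.indicator_of_notMem h]
      simp [ht]
  have h2 : ((t.toNNReal : ℝ≥0) : ℝ) = t := Real.coe_toNNReal t ht.le
  have h3 : μH[((t.toNNReal : ℝ≥0) : ℝ)] (S K) ≠ ∞ := by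
    rw [h2, h1]; exact ENNReal.zero_ne_top
  exact dimH_le_of_hausdorffMeasure_ne_top h3

end Pool.Agent.W462.DPL
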