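import Pool.Agent.W92.DP.Defs
import Pool.Agent.H984R4.NP.ModelLem
import Pool.Agent.H984R4.NP.PL

/-!
The event `two visits of a disc with an excursion in between` for the exploration path
(deterministic part), for DP-LIMU.
-/

namespace Pool.Agent.W462.DPL

open H974 H12S Finset H389NS H984P H984N MeasureTheory Filter Topology Pool.Agent.W92.DP

/-- Two visits of the disc `B(z, r)` with an excursion of radius more than `ρ` in between. -/
def Ev (z : ℂ) (r ρ : ℝ) : Set X :=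
  {p | ∃ s u t : unitInterval, (s ≤ u ∧ u ≤ t) ∧ dist (p.1 s) z < r ∧ dist (p.1 t) z < r ∧
    ρ < dist (p.1 u) z}

theorem Ev_open (z : ℂ) (r ρ : ℝ) : IsOpen (Ev z r ρ) := by
  have h : Ev z r ρ = ⋃ (s : unitInterval) (u : unitInterval) (t : unitInterval)
      (_ : s ≤ u ∧ u ≤ t), ({p : X | dist (p.1 s) z < r} ∩ {p : X | dist (p.1 t) z < r} ∩
        {p : X | ρ < dist (p.1 u) z}) := by
    ext p
    simp only [Ev, Set.mem_ofPred_eq, Set.mem_iUnion, Set.mem_inter_iff, exists_prop]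
    constructor
    · rintro ⟨s, u, t, h1, h2, h3, h4⟩
      exact ⟨s, u, t, h1, ⟨h2, h3⟩, h4⟩
    · rintro ⟨s, u, t, h1, ⟨h2, h3⟩, h4⟩
      exact ⟨s, u, t, h1, h2, h3, h4⟩
  have hc : ∀ s : unitInterval, Continuous (fun p : X => dist (p.1 s) z) := by
    intro s
    have h1 : Continuous (fun p : X => p.1 s) :=
      (continuous_eval_const s).comp continuous_fst
    exact h1.dist continuous_const
  rw [h]
  refine isOpen_iUnion fun s => isOpen_iUnion fun u => isOpen_iUnion fun t =>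
    isOpen_iUnion fun _ => ?_
  exact ((isOpen_lt (hc s) continuous_const).inter (isOpen_lt (hc t) continuous_const)).inter
    (isOpen_lt continuous_const (hc u))

/-- A double point near `z` forces the event. -/
theorem Ev_of_DPt {η r ρ : ℝ} {p : X} {z w : ℂ} (hw : w ∈ DPt η p.1) (hwz : dist w z < r)
    (hρ : ρ + r ≤ η) : p ∈ Ev z r ρ := by
  obtain ⟨s, u, t, h1, h2, h3, h4, h5⟩ := hw
  refine ⟨s, u, t, ⟨h1, h2⟩, ?_, ?_, ?_⟩
  · rw [h3]; exact hwz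
  · rw [h4]; exact hwz
  · have h6 := dist_triangle (p.1 u) z w
    rw [dist_comm z w] at h6
    linarith

/-- Every point of the curve is close to a node, with control of the index. -/
theorem pl_close' {N : ℕ} (hN : 0 < N) {p : ℕ → ℂ} {δ : ℝ}
    (h : ∀ k < N, dist (p k) (p (k + 1)) ≤ δ) (s : unitInterval) :
    ∃ k < N, ((k : ℝ) ≤ s * N ∧ (s : ℝ) * N ≤ k + 1) ∧ dist (pl N p s) (p k) ≤ δ := by
  obtain ⟨k, hk, h1, h2⟩ := pl_exists_seg hN s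
  refine ⟨k, hk, ⟨h1, h2⟩, ?_⟩
  rw [pl_seg hk h1 h2, dist_eq_norm]
  have e : p k + (((s : ℝ) * N - k : ℝ) : ℂ) * (p (k + 1) - p k) - p k =
      (((s : ℝ) * N - k : ℝ) : ℂ) * (p (k + 1) - p k) := by ring
  rw [e, norm_mul, Complex.norm_real, Real.norm_eq_abs, abs_of_nonneg (by linarith)]
  have h3 := h k hk
  rw [dist_comm, dist_eq_norm] at h3
  have h4 := norm_nonneg (p (k + 1) - p k)
  nlinarith

/-- order of the indices -/
theorem idx_le {N : ℕ} (hN : 0 < N) {s u : unitInterval} (hsu : s ≤ u) (hne : s ≠ u) {k j : ℕ}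
    (h1 : (k : ℝ) ≤ s * N) (h2 : (u : ℝ) * N ≤ j + 1) : k ≤ j := by
  by_contra hcon
  push Not at hcon
  have hN' : (0 : ℝ) < N := by exact_mod_cast hN
  have h3 : (s : ℝ) * N ≤ u * N := mul_le_mul_of_nonneg_right hsu hN'.le
  have h4 : (j : ℝ) + 1 ≤ k := by exact_mod_cast hcon
  have h5 : (s : ℝ) * N = u * N := by linarith
  exact hne (Subtype.ext (mul_right_cancel₀ hN'.ne' h5))

theorem step {R : Rect} {δ : ℝ} (hδ : 0 ≤ δ) (F : Finset Edg) (k : ℕ) :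
    dist (pos δ ((R.dm δ).walk F k)) (pos δ ((R.dm δ).walk F (k + 1))) ≤ δ / 2 := by
  have h := pos_nxt hδ ((R.dm δ).cfg F) ((R.dm δ).walk F k)
  have e : (R.dm δ).walk F (k + 1) = nxt ((R.dm δ).cfg F) ((R.dm δ).walk F k) := by
    unfold Dm.walk
    exact orb_succ _ _ _
  rw [e]
  exact h

/-- the centre of the lattice boxes -/
noncomputable def ctr (δ : ℝ) (z : ℂ) : ℤ × ℤ := (⌊z.re / δ⌋, ⌊z.im / δ⌋ - 1)

/-- position near `z` implies vertex near the centre -/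
theorem near_box {δ r : ℝ} (hδ : 0 < δ) {z : ℂ} {σ : St}
    (h : dist (pos δ σ) z ≤ r + δ / 2) :
    inR ((ctr δ z).1 - (⌈r / δ⌉₊ + 3 : ℕ)) ((ctr δ z).1 + (⌈r / δ⌉₊ + 3 : ℕ))
      ((ctr δ z).2 - (⌈r / δ⌉₊ + 3 : ℕ)) ((ctr δ z).2 + (⌈r / δ⌉₊ + 3 : ℕ)) σ.1 := by
  have h1 := (ML.le_dist_re (pos δ σ) z).trans h
  have h2 := (ML.le_dist_im (pos δ σ) z).trans h
  rw [ML.pos_re] at h1
  rw [ML.pos_im] at h2
  have q1 := ML.qx_le σ.2
  have q2 := ML.qy_le σ.2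
  have a1 := Int.floor_le (z.re / δ)
  have a2 := Int.lt_floor_add_one (z.re / δ)
  have b1 := Int.floor_le (z.im / δ)
  have b2 := Int.lt_floor_add_one (z.im / δ)
  have hρ : r / δ ≤ (⌈r / δ⌉₊ : ℝ) := Nat.le_ceil _
  set ρ : ℕ := ⌈r / δ⌉₊ with hρd
  set x : ℤ := σ.1.1 with hx
  set y : ℤ := σ.1.2 with hy
  set c1 : ℤ := ⌊z.re / δ⌋ with hc1
  set c2 : ℤ := ⌊z.im / δ⌋ with hc2
  have e1 : δ * (z.re / δ) = z.re := by field_simp
  have e2 : δ * (z.im / δ) = z.im := by field_simp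
  have e3 : δ * (r / δ) = r := by field_simp
  have k1 : |((x : ℝ) + ML.qx σ.2) - z.re / δ| ≤ r / δ + 1 / 2 := by
    have : δ * |((x : ℝ) + ML.qx σ.2) - z.re / δ| ≤ δ * (r / δ + 1 / 2) := by
      have e4 : δ * |((x : ℝ) + ML.qx σ.2) - z.re / δ| = |δ * ((x : ℝ) + ML.qx σ.2) - z.re| := by
        rw [← e1, ← mul_sub, abs_mul, abs_of_pos hδ, e1]
      rw [e4, mul_add δ (r / δ), e3]
      linarith
    exact le_of_mul_le_mul_left this hδ
  have k2 : |((y : ℝ) + 1 + ML.qy σ.2) - z.im / δ| ≤ r / δ + 1 / 2 := by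
    have : δ * |((y : ℝ) + 1 + ML.qy σ.2) - z.im / δ| ≤ δ * (r / δ + 1 / 2) := by
      have e4 : δ * |((y : ℝ) + 1 + ML.qy σ.2) - z.im / δ| =
          |δ * ((y : ℝ) + 1 + ML.qy σ.2) - z.im| := by
        rw [← e2, ← mul_sub, abs_mul, abs_of_pos hδ, e2]
      rw [e4, mul_add δ (r / δ), e3]
      linarith
    exact le_of_mul_le_mul_left this hδ
  rw [abs_le] at k1 k2 q1 q2
  have g1 : (c1 : ℝ) - (ρ + 3) ≤ x := by linarith [k1.1, k1.2, q1.1, q1.2]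
  have g2 : (x : ℝ) ≤ c1 + (ρ + 3) := by linarith [k1.1, k1.2, q1.1, q1.2]
  have g3 : ((c2 : ℝ) - 1) - (ρ + 3) ≤ y := by linarith [k2.1, k2.2, q2.1, q2.2]
  have g4 : (y : ℝ) ≤ ((c2 : ℝ) - 1) + (ρ + 3) := by linarith [k2.1, k2.2, q2.1, q2.2]
  refine ⟨⟨?_, ?_⟩, ?_, ?_⟩
  · show c1 - (ρ + 3 : ℕ) ≤ x
    push_cast
    exact_mod_cast g1
  · show x ≤ c1 + (ρ + 3 : ℕ)
    push_cast
    exact_mod_cast g2
  · show (c2 - 1) - (ρ + 3 : ℕ) ≤ y
    push_cast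
    exact_mod_cast g3
  · show y ≤ (c2 - 1) + (ρ + 3 : ℕ)
    push_cast
    exact_mod_cast g4

/-- vertex in a box implies position near `z` -/
theorem box_near {δ : ℝ} (hδ : 0 < δ) {z : ℂ} {σ : St} {k : ℕ}
    (h : inR ((ctr δ z).1 - k) ((ctr δ z).1 + k) ((ctr δ z).2 - k) ((ctr δ z).2 + k) σ.1) :
    dist (pos δ σ) z ≤ 2 * δ * k + 5 / 2 * δ := by
  obtain ⟨⟨h1, h2⟩, h3, h4⟩ := h
  have q1 := ML.qx_le σ.2
  have q2 := ML.qy_le σ.2
  have a1 := Int.floor_le (z.re / δ)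
  have a2 := Int.lt_floor_add_one (z.re / δ)
  have b1 := Int.floor_le (z.im / δ)
  have b2 := Int.lt_floor_add_one (z.im / δ)
  set x : ℤ := σ.1.1 with hx
  set y : ℤ := σ.1.2 with hy
  set c1 : ℤ := ⌊z.re / δ⌋ with hc1
  set c2 : ℤ := ⌊z.im / δ⌋ with hc2
  have h1' : c1 - k ≤ x := h1
  have h2' : x ≤ c1 + k := h2
  have h3' : (c2 - 1) - k ≤ y := h3
  have h4' : y ≤ (c2 - 1) + k := h4
  have g1 : (c1 : ℝ) - k ≤ x := by exact_mod_cast h1'
  have g2 : (x : ℝ) ≤ c1 + k := by exact_mod_cast h2'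
  have g3 : ((c2 : ℝ) - 1) - k ≤ y := by exact_mod_cast h3'
  have g4 : (y : ℝ) ≤ ((c2 : ℝ) - 1) + k := by exact_mod_cast h4'
  have e1 : δ * (z.re / δ) = z.re := by field_simp
  have e2 : δ * (z.im / δ) = z.im := by field_simp
  rw [abs_le] at q1 q2
  have k1 : |(pos δ σ).re - z.re| ≤ δ * (k + 5 / 4) := by
    rw [ML.pos_re]
    have e : δ * ((σ.1.1 : ℝ) + ML.qx σ.2) - z.re =
        δ * (((x : ℝ) + ML.qx σ.2) - z.re / δ) := by
      rw [mul_sub, e1]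
    rw [e, abs_mul, abs_of_pos hδ]
    refine mul_le_mul_of_nonneg_left ?_ hδ.le
    rw [abs_le]
    constructor <;> linarith [q1.1, q1.2]
  have k2 : |(pos δ σ).im - z.im| ≤ δ * (k + 5 / 4) := by
    rw [ML.pos_im]
    have e : δ * ((σ.1.2 : ℝ) + 1 + ML.qy σ.2) - z.im =
        δ * (((y : ℝ) + 1 + ML.qy σ.2) - z.im / δ) := by
      rw [mul_sub, e2]
    rw [e, abs_mul, abs_of_pos hδ]
    refine mul_le_mul_of_nonneg_left ?_ hδ.le
    rw [abs_le]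
    constructor <;> linarith [q2.1, q2.2]
  refine (ML.dist_le_of k1 k2).trans ?_
  apply le_of_eq
  ring

/-- the box of radius `⌊d / (8 δ)⌋` is in the domain -/
theorem dom_box (R : Rect) {z : ℂ} {d δ : ℝ} (hδ : 0 < δ) (hd : 64 * δ ≤ d)
    (hball : Metric.ball z d ⊆ R.D) :
    (R.dm δ).l < (ctr δ z).1 - (⌊d / (8 * δ)⌋₊ : ℕ) ∧ (ctr δ z).1 + (⌊d / (8 * δ)⌋₊ : ℕ) < (R.dm δ).r ∧
      0 < (ctr δ z).2 - (⌊d / (8 * δ)⌋₊ : ℕ) ∧ (ctr δ z).2 + (⌊d / (8 * δ)⌋₊ : ℕ) < (R.dm δ).h := by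
  have hd0 : 0 < d := by linarith
  have mem : ∀ w : ℂ, ‖w‖ < d → z + w ∈ R.D := by
    intro w hw
    apply hball
    rw [Metric.mem_ball, Complex.dist_eq]
    simpa using hw
  have w1 : -R.A < z.re - d / 2 := by
    have h := (mem ⟨-(d / 2), 0⟩ (by
      have h := Complex.norm_le_abs_re_add_abs_im (⟨-(d / 2), 0⟩ : ℂ)
      have h2 : |(⟨-(d / 2), 0⟩ : ℂ).re| = d / 2 := by
        show |-(d / 2)| = d / 2
        rw [abs_neg, abs_of_pos (by linarith)]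
      have h3 : |(⟨-(d / 2), 0⟩ : ℂ).im| = 0 := by
        show |(0 : ℝ)| = 0
        simp
      rw [h2, h3] at h
      linarith)).1
    rw [Complex.add_re] at h
    have e : (⟨-(d / 2), 0⟩ : ℂ).re = -(d / 2) := rfl
    rw [e] at h
    linarith
  have w2 : z.re + d / 2 < R.B := by
    have h := (mem ⟨d / 2, 0⟩ (by
      have h := Complex.norm_le_abs_re_add_abs_im (⟨d / 2, 0⟩ : ℂ)
      have h2 : |(⟨d / 2, 0⟩ : ℂ).re| = d / 2 := by
        show |d / 2| = d / 2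
        rw [abs_of_pos (by linarith)]
      have h3 : |(⟨d / 2, 0⟩ : ℂ).im| = 0 := by
        show |(0 : ℝ)| = 0
        simp
      rw [h2, h3] at h
      linarith)).2.1
    rw [Complex.add_re] at h
    have e : (⟨d / 2, 0⟩ : ℂ).re = d / 2 := rfl
    rw [e] at h
    linarith
  have w3 : 0 < z.im - d / 2 := by
    have h := (mem ⟨0, -(d / 2)⟩ (by
      have h := Complex.norm_le_abs_re_add_abs_im (⟨0, -(d / 2)⟩ : ℂ)
      have h2 : |(⟨0, -(d / 2)⟩ : ℂ).im| = d / 2 := by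
        show |-(d / 2)| = d / 2
        rw [abs_neg, abs_of_pos (by linarith)]
      have h3 : |(⟨0, -(d / 2)⟩ : ℂ).re| = 0 := by
        show |(0 : ℝ)| = 0
        simp
      rw [h2, h3] at h
      linarith)).2.2.1
    rw [Complex.add_im] at h
    have e : (⟨0, -(d / 2)⟩ : ℂ).im = -(d / 2) := rfl
    rw [e] at h
    linarith
  have w4 : z.im + d / 2 < R.H := by
    have h := (mem ⟨0, d / 2⟩ (by
      have h := Complex.norm_le_abs_re_add_abs_im (⟨0, d / 2⟩ : ℂ)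
      have h2 : |(⟨0, d / 2⟩ : ℂ).im| = d / 2 := by
        show |d / 2| = d / 2
        rw [abs_of_pos (by linarith)]
      have h3 : |(⟨0, d / 2⟩ : ℂ).re| = 0 := by
        show |(0 : ℝ)| = 0
        simp
      rw [h2, h3] at h
      linarith)).2.2.2
    rw [Complex.add_im] at h
    have e : (⟨0, d / 2⟩ : ℂ).im = d / 2 := rfl
    rw [e] at h
    linarith
  have a1 := Int.floor_le (z.re / δ)
  have a2 := Int.lt_floor_add_one (z.re / δ)
  have b1 := Int.floor_le (z.im / δ)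
  have b2 := Int.lt_floor_add_one (z.im / δ)
  have fA : ((⌊-(R.A / δ)⌋ : ℤ) : ℝ) ≤ -(R.A / δ) := Int.floor_le _
  have fB : R.B / δ ≤ ((⌈R.B / δ⌉ : ℤ) : ℝ) := Int.le_ceil _
  have fH : R.H / δ ≤ ((⌈R.H / δ⌉ : ℤ) : ℝ) := Int.le_ceil _
  have hk : (⌊d / (8 * δ)⌋₊ : ℝ) ≤ d / (8 * δ) := Nat.floor_le (by positivity)
  set k : ℕ := ⌊d / (8 * δ)⌋₊ with hkd
  have e0 : d / (8 * δ) = (d / δ) / 8 := by
    field_simp
  rw [e0] at hk
  have hdδ : 64 ≤ d / δ := by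
    rw [le_div_iff₀ hδ]
    exact hd
  have v1 : -(R.A / δ) < z.re / δ - (d / δ) / 2 := by
    have h := div_lt_div_of_pos_right w1 hδ
    have e : (z.re - d / 2) / δ = z.re / δ - (d / δ) / 2 := by ring
    rw [e, neg_div] at h
    exact h
  have v2 : z.re / δ + (d / δ) / 2 < R.B / δ := by
    have h := div_lt_div_of_pos_right w2 hδ
    have e : (z.re + d / 2) / δ = z.re / δ + (d / δ) / 2 := by ring
    rw [e] at h
    exact h
  have v3 : 0 < z.im / δ - (d / δ) / 2 := by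
    have h := div_lt_div_of_pos_right w3 hδ
    have e : (z.im - d / 2) / δ = z.im / δ - (d / δ) / 2 := by ring
    rw [e, zero_div] at h
    exact h
  have v4 : z.im / δ + (d / δ) / 2 < R.H / δ := by
    have h := div_lt_div_of_pos_right w4 hδ
    have e : (z.im + d / 2) / δ = z.im / δ + (d / δ) / 2 := by ring
    rw [e] at h
    exact h
  refine ⟨?_, ?_, ?_, ?_⟩
  · show ⌊-(R.A / δ)⌋ + 1 < ⌊z.re / δ⌋ - (k : ℕ)
    have : ((⌊-(R.A / δ)⌋ : ℤ) : ℝ) + 1 < ((⌊z.re / δ⌋ : ℤ) : ℝ) - (k : ℝ) := by linarith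
    exact_mod_cast this
  · show ⌊z.re / δ⌋ + (k : ℕ) < ⌈R.B / δ⌉ - 1
    have : ((⌊z.re / δ⌋ : ℤ) : ℝ) + (k : ℝ) < ((⌈R.B / δ⌉ : ℤ) : ℝ) - 1 := by linarith
    exact_mod_cast this
  · show 0 < ⌊z.im / δ⌋ - 1 - (k : ℕ)
    have : (0 : ℝ) < ((⌊z.im / δ⌋ : ℤ) : ℝ) - 1 - (k : ℝ) := by linarith
    exact_mod_cast this
  · show ⌊z.im / δ⌋ - 1 + (k : ℕ) < ⌈R.H / δ⌉ - 2
    have : ((⌊z.im / δ⌋ : ℤ) : ℝ) - 1 + (k : ℝ) < ((⌈R.H / δ⌉ : ℤ) : ℝ) - 2 := by linarith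
    exact_mod_cast this

/-- the sizes -/
theorem sizes {r d δ : ℝ} (hδ : 0 < δ) (hδr : δ ≤ r) (hd : 256 * r ≤ d) :
    (⌈r / δ⌉₊ + 3) + 6 ≤ ⌊d / (8 * δ)⌋₊ ∧ (⌈r / δ⌉₊ + 3) + 2 ≤ ⌊d / (8 * δ)⌋₊ - 2 ∧
      1 ≤ ⌊d / (8 * δ)⌋₊ - 2 ∧
      (((⌈r / δ⌉₊ + 3 + 2 : ℕ) : ℝ) / ((⌊d / (8 * δ)⌋₊ - 2 : ℕ) : ℝ)) ≤ 256 * (r / d) := by
  have hr : 0 < r := hδ.trans_le hδr
  have hd0 : 0 < d := by linarith
  have h2 : 1 ≤ r / δ := by
    rw [le_div_iff₀ hδ]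
    linarith
  have h3 : (⌈r / δ⌉₊ : ℝ) < r / δ + 1 := Nat.ceil_lt_add_one (by positivity)
  have h4 : d / (8 * δ) < (⌊d / (8 * δ)⌋₊ : ℝ) + 1 := Nat.lt_floor_add_one _
  have h5 : (r / δ) * 32 ≤ d / (8 * δ) := by
    rw [div_mul_eq_mul_div, div_le_div_iff₀ hδ (by positivity)]
    nlinarith
  set a : ℕ := ⌈r / δ⌉₊ with ha
  set b : ℕ := ⌊d / (8 * δ)⌋₊ with hb
  have h6 : (a : ℝ) + 12 < (b : ℝ) + 1 := by linarith
  have h7 : a + 12 < b + 1 := by exact_mod_cast h6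
  refine ⟨by omega, by omega, by omega, ?_⟩
  have hN0 : (0 : ℝ) < ((b - 2 : ℕ) : ℝ) := by
    have : 0 < b - 2 := by omega
    exact_mod_cast this
  have hbc : ((b - 2 : ℕ) : ℝ) = (b : ℝ) - 2 := by
    rw [Nat.cast_sub (by omega)]
    norm_num
  rw [div_le_iff₀ hN0, hbc]
  push_cast
  have h9 : d / (16 * δ) ≤ (b : ℝ) - 2 := by
    have h10 : d / (16 * δ) = d / (8 * δ) / 2 := by
      field_simp
      norm_num
    rw [h10]
    linarith
  have h11 : 256 * (r / d) * (d / (16 * δ)) = 16 * (r / δ) := by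
    field_simp
    norm_num
  have h12 := mul_le_mul_of_nonneg_left h9 (by positivity : 0 ≤ 256 * (r / d))
  rw [h11] at h12
  linarith

/-- the deterministic part -/
theorem det (hU : St_U) (R : Rect) {z : ℂ} {r d δ : ℝ} (hδ : 0 < δ) (hδr : δ ≤ r)
    (hd : 256 * r ≤ d) (hball : Metric.ball z d ⊆ R.D) (hok : (R.dm δ).Ok) {F : Finset Edg}
    (hF : F ⊆ (R.dm δ).edges) (hE : (R.curve δ F, R.time δ F) ∈ Ev z r (d / 2)) :
    A4a (ctr δ z) (⌈r / δ⌉₊ + 3 + 2) (⌊d / (8 * δ)⌋₊ - 2) ↑F ∨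
      A4d (ctr δ z) (⌈r / δ⌉₊ + 3 + 2) (⌊d / (8 * δ)⌋₊ - 2) ↑F := by
  obtain ⟨s, u, t, ⟨hsu, hut⟩, h1, h2, h3⟩ := hE
  have hr : 0 < r := hδ.trans_le hδr
  have hd0 : 0 < d := by linarith
  simp only at h1 h2 h3
  set N : ℕ := (R.dm δ).len F with hN
  have hcur : R.curve δ F = pl N (fun k => pos δ ((R.dm δ).walk F k)) := rfl
  rw [hcur] at h1 h2 h3
  rcases Nat.eq_zero_or_pos N with h0 | hNpos
  · exfalso
    rw [h0, pl_apply'] at h1 h3
    simp only [Finset.range_zero, Finset.sum_empty, add_zero] at h1 h3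
    linarith
  have hst : ∀ k < N, dist (pos δ ((R.dm δ).walk F k)) (pos δ ((R.dm δ).walk F (k + 1))) ≤ δ / 2 :=
    fun k _ => step hδ.le F k
  obtain ⟨i, hiN, ⟨i1, i2⟩, hi⟩ := pl_close' hNpos hst s
  obtain ⟨j, hjN, ⟨j1, j2⟩, hj⟩ := pl_close' hNpos hst u
  obtain ⟨l, hlN, ⟨l1, l2⟩, hl⟩ := pl_close' hNpos hst t
  set f := pl N (fun k => pos δ ((R.dm δ).walk F k)) with hf
  have hsu' : s ≠ u := by
    intro h
    rw [h] at h1
    linarith
  have hut' : u ≠ t := by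
    intro h
    rw [← h] at h2
    linarith
  have hij : i ≤ j := idx_le hNpos hsu hsu' i1 j2
  have hjl : j ≤ l := idx_le hNpos hut hut' j1 l2
  -- positions
  have pi : dist (pos δ ((R.dm δ).walk F i)) z ≤ r + δ / 2 := by
    have := dist_triangle_left (pos δ ((R.dm δ).walk F i)) z (f s)
    linarith
  have plz : dist (pos δ ((R.dm δ).walk F l)) z ≤ r + δ / 2 := by
    have := dist_triangle_left (pos δ ((R.dm δ).walk F l)) z (f t)
    linarith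
  have pj : d / 2 - δ / 2 < dist (pos δ ((R.dm δ).walk F j)) z := by
    have := dist_triangle (f u) (pos δ ((R.dm δ).walk F j)) z
    linarith
  have hij' : i < j := by
    rcases hij.lt_or_eq with h | h
    · exact h
    · exfalso
      rw [h] at pi
      linarith
  have hjl' : j < l := by
    rcases hjl.lt_or_eq with h | h
    · exact h
    · exfalso
      rw [← h] at plz
      linarith
  obtain ⟨s1, _, _, _⟩ := sizes hδ hδr hd
  obtain ⟨b1, b2, b3, b4⟩ := dom_box R hδ (by linarith) hball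
  refine hU (R.dm δ) F hok hF (ctr δ z) (⌈r / δ⌉₊ + 3) ⌊d / (8 * δ)⌋₊ s1 b1 b2 b3 b4 i j l hij' hjl'
    hlN.le (near_box hδ pi) (near_box hδ plz) ?_
  intro hin
  have h5 := box_near hδ hin
  have hk : (⌊d / (8 * δ)⌋₊ : ℝ) ≤ d / (8 * δ) := Nat.floor_le (by positivity)
  have h6 : 2 * δ * (⌊d / (8 * δ)⌋₊ : ℝ) ≤ d / 4 := by
    calc 2 * δ * (⌊d / (8 * δ)⌋₊ : ℝ) ≤ 2 * δ * (d / (8 * δ)) :=
          mul_le_mul_of_nonneg_left hk (by positivity)
      _ = d / 4 := by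
          field_simp
          norm_num
  linarith

end Pool.Agent.W462.DPL
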