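import Pool.Agent.W462.DPL.A
import Pool.Agent.W462.DPL.B
import Pool.Agent.H934R3.D74.T10Aux

/-!
DP-LIMU: upper bound for the dimension of the double points of the limits of the exploration path.
-/

namespace Pool.Agent.W462.DPL

open H974 H12S Finset H389NS H984P H984N MeasureTheory Filter Topology Pool.Agent.W92.DP
open scoped ENNReal NNReal

theorem okh : Ok (fun _ : Edg => (1/2:ℝ)) := fun _ => ⟨by norm_num, by norm_num⟩

/-- probability bound -/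
theorem prob_le (hU : St_U) (hA : St_Aa) (hD : St_Ad) (R : Rect) :
    ∃ C : ℝ, 0 < C ∧ ∃ δ0 : ℝ, 0 < δ0 ∧ ∀ (z : ℂ) (r d δ : ℝ), 0 < r → r ≤ d →
      Metric.ball z d ⊆ R.D → 0 < δ → δ ≤ r → δ ≤ δ0 →
        (R.law δ : Measure X) (Ev z r (d / 2)) ≤ ENNReal.ofReal (C * (r / d) ^ (5/4 : ℝ)) := by
  obtain ⟨κ, S, δ0, hκ, hS, hδ0, hδ1, hsh⟩ := R.shape
  obtain ⟨Ca, hCa, hA'⟩ := hA
  obtain ⟨Cd, hCd, hD'⟩ := hD
  refine ⟨(Ca + Cd + 1) * 256 ^ (5/4 : ℝ), by positivity, δ0, hδ0, ?_⟩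
  intro z r d δ hr hrd hball hδ hδr hδδ
  have hd0 : 0 < d := hr.trans_le hrd
  rw [R.law_apply δ (Ev_open z r (d / 2)).measurableSet]
  apply ENNReal.ofReal_le_ofReal
  have hq : 0 < r / d := by positivity
  have hRHS : (Ca + Cd + 1) * 256 ^ (5/4 : ℝ) * (r / d) ^ (5/4 : ℝ) =
      (Ca + Cd + 1) * (256 * (r / d)) ^ (5/4 : ℝ) := by
    rw [Real.mul_rpow (by norm_num) hq.le]
    ring
  rw [hRHS]
  by_cases h256 : 256 * r ≤ d
  · obtain ⟨s1, s2, s3, s4⟩ := sizes hδ hδr h256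
    obtain ⟨b1, b2, b3, b4⟩ := dom_box R hδ (by linarith) hball
    have hsub : blk (ctr δ z) ⌊d / (8 * δ)⌋₊ ⊆ (R.dm δ).edges :=
      RE_subset b1.le b2.le b3.le b4.le
    have hsub1 : ∀ k : ℕ, k ≤ ⌊d / (8 * δ)⌋₊ → blk (ctr δ z) k ⊆ (R.dm δ).edges := by
      intro k hk
      refine (RE_subset ?_ ?_ ?_ ?_).trans hsub <;> omega
    have h1 := hA' (ctr δ z) (⌈r / δ⌉₊ + 3 + 2) (⌊d / (8 * δ)⌋₊ - 2) (by omega) s2
      (R.dm δ).edges (hsub1 _ (by omega))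
    have h2 := hD' (ctr δ z) (⌈r / δ⌉₊ + 3 + 2) (⌊d / (8 * δ)⌋₊ - 2) (by omega) s2
      (R.dm δ).edges (hsub1 _ (by omega))
    have hmono : R.prob δ (fun F => (R.curve δ F, R.time δ F) ∈ Ev z r (d / 2)) ≤
        PQ (1/2) (R.dm δ).edges (fun F =>
          A4a (ctr δ z) (⌈r / δ⌉₊ + 3 + 2) (⌊d / (8 * δ)⌋₊ - 2) ↑F ∨
          A4d (ctr δ z) (⌈r / δ⌉₊ + 3 + 2) (⌊d / (8 * δ)⌋₊ - 2) ↑F) := by
      apply Pr_mono okh
      intro F hF hE
      exact det hU R hδ hδr h256 hball (hsh δ hδ hδδ).ok hF hE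
    have hor := Pr_or_le okh (R.dm δ).edges
      (fun F => A4a (ctr δ z) (⌈r / δ⌉₊ + 3 + 2) (⌊d / (8 * δ)⌋₊ - 2) ↑F)
      (fun F => A4d (ctr δ z) (⌈r / δ⌉₊ + 3 + 2) (⌊d / (8 * δ)⌋₊ - 2) ↑F)
    have hpow : (((⌈r / δ⌉₊ + 3 + 2 : ℕ) : ℝ) / ((⌊d / (8 * δ)⌋₊ - 2 : ℕ) : ℝ)) ^ (5/4 : ℝ) ≤
        (256 * (r / d)) ^ (5/4 : ℝ) :=
      Real.rpow_le_rpow (by positivity) s4 (by norm_num)
    have hx0 : 0 ≤ (256 * (r / d)) ^ (5/4 : ℝ) := by positivity
    have h3 := mul_le_mul_of_nonneg_left hpow hCa.le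
    have h4 := mul_le_mul_of_nonneg_left hpow hCd.le
    have h5 := hmono.trans (hor.trans (add_le_add (h1.trans h3) (h2.trans h4)))
    refine h5.trans ?_
    nlinarith
  · push Not at h256
    have h1 : R.prob δ (fun F => (R.curve δ F, R.time δ F) ∈ Ev z r (d / 2)) ≤ 1 :=
      Pr_le_one okh _ _
    refine h1.trans ?_
    have h2 : 1 ≤ 256 * (r / d) := by
      rw [← mul_div_assoc, le_div_iff₀ hd0]
      linarith
    have h3 : 1 ≤ (256 * (r / d)) ^ (5/4 : ℝ) := Real.one_le_rpow h2 (by norm_num)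
    nlinarith

/-- the limit of the covering sums -/
theorem lim0 (M : ℝ) (C d t : ℝ) (hd : 0 < d) (ht : 3 / 4 < t) (m0 : ℕ) (hm0 : 1 ≤ m0) :
    Tendsto (fun m : ℕ => (2 * M * ((m + m0 : ℕ) : ℝ)) ^ 2 * ((4 / ((m + m0 : ℕ) : ℝ)) ^ t *
      (C * ((2 / ((m + m0 : ℕ) : ℝ)) / d) ^ (5 / 4 : ℝ)))) atTop (𝓝 0) := by
  have h1 : Tendsto (fun m : ℕ => ((m + m0 : ℕ) : ℝ)) atTop atTop :=
    tendsto_natCast_atTop_atTop.comp (tendsto_add_atTop_nat m0)
  have h2 : Tendsto (fun x : ℝ => x ^ (-(t - 3 / 4))) atTop (𝓝 0) :=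
    tendsto_rpow_neg_atTop (by linarith)
  have h3 := (h2.comp h1).const_mul ((2 * M) ^ 2 * (4 ^ t * (C * (2 / d) ^ (5 / 4 : ℝ))))
  rw [mul_zero] at h3
  refine h3.congr ?_
  intro m
  have hpos : (0 : ℝ) < ((m + m0 : ℕ) : ℝ) := by
    have : 0 < m + m0 := by omega
    exact_mod_cast this
  set x : ℝ := ((m + m0 : ℕ) : ℝ) with hx
  simp only [Function.comp]
  rw [← hx]
  have e1 : (4 / x) ^ t = 4 ^ t * x ^ (-t) := by
    rw [Real.div_rpow (by norm_num) hpos.le, Real.rpow_neg hpos.le]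
    ring
  have e2 : ((2 / x) / d) ^ (5 / 4 : ℝ) = (2 / d) ^ (5 / 4 : ℝ) * x ^ (-(5 / 4) : ℝ) := by
    have : (2 / x) / d = (2 / d) / x := by
      field_simp
    rw [this, Real.div_rpow (by positivity) hpos.le, Real.rpow_neg hpos.le]
    ring
  have e3 : x ^ (-(t - 3 / 4)) = x ^ (2 : ℝ) * (x ^ (-t) * x ^ (-(5 / 4) : ℝ)) := by
    rw [← Real.rpow_add hpos, ← Real.rpow_add hpos]
    congr 1
    ring
  rw [e1, e2, e3, Real.rpow_two]
  ring

open Classical in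
/-- the event which belongs to a covering set -/
noncomputable def HU (D : Set ℂ) (d N : ℝ) (a b : ℤ) : Set X :=
  if h : (H934F.t10_sq N a b ∩ H934F.t10_A D d).Nonempty then Ev h.some (2 / N) (d / 2) else ∅

theorem HU_open (D : Set ℂ) (d N : ℝ) (a b : ℤ) : IsOpen (HU D d N a b) := by
  unfold HU
  split_ifs
  · exact Ev_open _ _ _
  · exact isOpen_empty

theorem HU_of {D : Set ℂ} {d N η : ℝ} (hdη : d ≤ η) (hN : 2 / N ≤ d / 2) {a b : ℤ} {p : X}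
    {A : Set ℂ} (h : ((DPt η p.1 ∩ A) ∩ H934F.t10_U D d N a b).Nonempty) : p ∈ HU D d N a b := by
  obtain ⟨w, ⟨hw1, _⟩, hw2⟩ := h
  unfold H934F.t10_U at hw2
  unfold HU
  split_ifs at hw2 ⊢ with h
  · rw [Metric.mem_ball] at hw2
    exact Ev_of_DPt hw1 hw2 (by linarith)
  · exact absurd hw2 (Set.notMem_empty _)

/-- one scale -/
theorem one_scale {D : Set ℂ} {M : ℕ} (hM : ∀ z ∈ D, |z.re| < M ∧ |z.im| < M) {C d η : ℝ}
    (hC : 0 < C) (hd : 0 < d) (hdη : d ≤ η) {μs : ℕ → ProbabilityMeasure X}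
    {μ : ProbabilityMeasure X} (hμ : Tendsto μs atTop (𝓝 μ))
    (hp : ∀ (z : ℂ) (r : ℝ), 0 < r → r ≤ d → Metric.ball z d ⊆ D →
      ∀ᶠ i in atTop, (μs i : Measure X) (Ev z r (d / 2)) ≤
          ENNReal.ofReal (C * (r / d) ^ (5 / 4 : ℝ))) {t : ℝ} (ht : 3 / 4 < t) :
    ∀ᵐ p ∂(μ : Measure X), dimH (DPt η p.1 ∩ H934F.t10_A D d) ≤ ENNReal.ofReal t := by
  obtain ⟨m1, hm1⟩ := exists_nat_gt (4 / d)
  set m0 : ℕ := m1 + 1 with hm0
  have hN : ∀ m : ℕ, (0 : ℝ) < ((m + m0 : ℕ) : ℝ) := by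
    intro m
    have : 0 < m + m0 := by omega
    exact_mod_cast this
  have hNd : ∀ m : ℕ, 2 / ((m + m0 : ℕ) : ℝ) ≤ d / 2 := by
    intro m
    rw [div_le_iff₀ (hN m)]
    rw [div_lt_iff₀ hd] at hm1
    have : (m1 : ℝ) ≤ ((m + m0 : ℕ) : ℝ) := by
      have : m1 ≤ m + m0 := by omega
      exact_mod_cast this
    nlinarith
  have hsub : H934F.t10_A D d ⊆ D := fun z hz => hz (Metric.mem_ball_self hd)
  refine upperG (by linarith) hμ (fun p => DPt η p.1 ∩ H934F.t10_A D d)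
    (ι := fun m => Fin (2 * M * (m + m0)) × Fin (2 * M * (m + m0)))
    (fun m i => H934F.t10_U D d ((m + m0 : ℕ) : ℝ) ((i.1 : ℕ) - (M * (m + m0) : ℕ) : ℤ)
      ((i.2 : ℕ) - (M * (m + m0) : ℕ) : ℤ))
    (fun m i => HU D d ((m + m0 : ℕ) : ℝ) ((i.1 : ℕ) - (M * (m + m0) : ℕ) : ℤ)
      ((i.2 : ℕ) - (M * (m + m0) : ℕ) : ℤ))
    (fun m i => HU_open _ _ _ _ _) (fun m i p h => HU_of hdη (hNd m) h)
    (fun m => ENNReal.ofReal (4 / ((m + m0 : ℕ) : ℝ))) ?_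
    (fun m i => H934F.t10_U_ediam _ _ _ _ _)
    ?_ (fun m _ => ENNReal.ofReal (C * ((2 / ((m + m0 : ℕ) : ℝ)) / d) ^ (5 / 4 : ℝ))) ?_ ?_
  · -- the radii tend to zero
    have h1 : Tendsto (fun m : ℕ => ((m + m0 : ℕ) : ℝ)) atTop atTop :=
      tendsto_natCast_atTop_atTop.comp (tendsto_add_atTop_nat m0)
    have h2 : Tendsto (fun m : ℕ => 4 / ((m + m0 : ℕ) : ℝ)) atTop (𝓝 0) :=
      h1.const_div_atTop 4
    have h3 := ENNReal.tendsto_ofReal h2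
    rwa [ENNReal.ofReal_zero] at h3
  · -- covering
    rintro m p z ⟨_, hz⟩
    obtain ⟨h1, h2⟩ := hM z (hsub hz)
    have hb : ∀ y : ℝ, |y| < M → -((M * (m + m0) : ℕ) : ℤ) ≤ ⌊((m + m0 : ℕ) : ℝ) * y⌋ ∧
        ⌊((m + m0 : ℕ) : ℝ) * y⌋ < ((M * (m + m0) : ℕ) : ℤ) := by
      intro y hy
      rw [abs_lt] at hy
      have hn := hN m
      constructor
      · rw [Int.le_floor]
        push_cast at hn ⊢
        nlinarith
      · rw [Int.floor_lt]
        push_cast at hn ⊢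
        nlinarith
    obtain ⟨h3, h4⟩ := hb _ h1
    obtain ⟨h5, h6⟩ := hb _ h2
    refine Set.mem_iUnion.mpr ⟨(⟨(⌊((m + m0 : ℕ) : ℝ) * z.re⌋ + (M * (m + m0) : ℕ)).toNat, ?_⟩,
      ⟨(⌊((m + m0 : ℕ) : ℝ) * z.im⌋ + (M * (m + m0) : ℕ)).toNat, ?_⟩), ?_⟩
    · rw [Int.toNat_lt (by omega)]
      have : ((2 * M * (m + m0) : ℕ) : ℤ) = 2 * ((M * (m + m0) : ℕ) : ℤ) := by
        push_cast; ring
      omega
    · rw [Int.toNat_lt (by omega)]
      have : ((2 * M * (m + m0) : ℕ) : ℤ) = 2 * ((M * (m + m0) : ℕ) : ℤ) := by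
        push_cast; ring
      omega
    · have hcov := H934F.t10_U_cover (N := ((m + m0 : ℕ) : ℝ)) (hN m) hz
      simp only
      rw [Int.toNat_of_nonneg (by omega), Int.toNat_of_nonneg (by omega)]
      rw [add_sub_cancel_right, add_sub_cancel_right]
      exact hcov
  · -- probabilities
    intro m i
    unfold HU
    split_ifs with h
    · exact (hp h.some (2 / ((m + m0 : ℕ) : ℝ)) (div_pos two_pos (hN m))
        ((hNd m).trans (by linarith)) h.some_mem.2).frequently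
    · refine (Eventually.of_forall fun n => ?_).frequently
      rw [measure_empty]
      exact zero_le
  · -- the sums tend to zero
    have hl := ENNReal.tendsto_ofReal (lim0 M C d t hd ht m0 (by omega))
    rw [ENNReal.ofReal_zero] at hl
    refine tendsto_of_tendsto_of_tendsto_of_le_of_le tendsto_const_nhds hl
      (fun m => zero_le) (fun m => ?_)
    have hn := hN m
    have ht0 : 0 ≤ t := by linarith
    have h4 : 0 ≤ (4 : ℝ) / ((m + m0 : ℕ) : ℝ) := by positivity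
    calc ∑ i : Fin (2 * M * (m + m0)) × Fin (2 * M * (m + m0)),
          Metric.ediam (H934F.t10_U D d ((m + m0 : ℕ) : ℝ) ((i.1 : ℕ) - (M * (m + m0) : ℕ) : ℤ)
            ((i.2 : ℕ) - (M * (m + m0) : ℕ) : ℤ)) ^ t *
            ENNReal.ofReal (C * ((2 / ((m + m0 : ℕ) : ℝ)) / d) ^ (5 / 4 : ℝ))
        ≤ ∑ _i : Fin (2 * M * (m + m0)) × Fin (2 * M * (m + m0)),
          ENNReal.ofReal ((4 / ((m + m0 : ℕ) : ℝ)) ^ t *
            (C * ((2 / ((m + m0 : ℕ) : ℝ)) / d) ^ (5 / 4 : ℝ))) := by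
          refine Finset.sum_le_sum fun i _ => ?_
          have e5 : ENNReal.ofReal ((4 / ((m + m0 : ℕ) : ℝ)) ^ t *
              (C * ((2 / ((m + m0 : ℕ) : ℝ)) / d) ^ (5 / 4 : ℝ))) =
              ENNReal.ofReal (4 / ((m + m0 : ℕ) : ℝ)) ^ t *
                ENNReal.ofReal (C * ((2 / ((m + m0 : ℕ) : ℝ)) / d) ^ (5 / 4 : ℝ)) := by
            rw [ENNReal.ofReal_mul (by positivity), ENNReal.ofReal_rpow_of_nonneg h4 ht0]
          rw [e5]
          gcongr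
          exact H934F.t10_U_ediam _ _ _ _ _
      _ ≤ ENNReal.ofReal ((2 * M * ((m + m0 : ℕ) : ℝ)) ^ 2 * ((4 / ((m + m0 : ℕ) : ℝ)) ^ t *
            (C * ((2 / ((m + m0 : ℕ) : ℝ)) / d) ^ (5 / 4 : ℝ)))) := by
          have e : (2 * (M : ℝ) * ((m + m0 : ℕ) : ℝ)) ^ 2 =
              ((2 * M * (m + m0) * (2 * M * (m + m0)) : ℕ) : ℝ) := by
            push_cast
            ring
          rw [Finset.sum_const, Finset.card_univ, Fintype.card_prod, Fintype.card_fin,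
            nsmul_eq_mul, e, ENNReal.ofReal_mul (Nat.cast_nonneg _), ENNReal.ofReal_natCast]

theorem D_open (R : Rect) : IsOpen R.D := by
  have h : R.D = {z : ℂ | -R.A < z.re} ∩ {z : ℂ | z.re < R.B} ∩ {z : ℂ | 0 < z.im} ∩
      {z : ℂ | z.im < R.H} := by
    ext z
    unfold Rect.D
    simp only [Set.mem_inter_iff, Set.mem_ofPred_eq]
    tauto
  rw [h]
  exact ((((isOpen_lt continuous_const Complex.continuous_re).inter
    (isOpen_lt Complex.continuous_re continuous_const)).inter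
    (isOpen_lt continuous_const Complex.continuous_im)).inter
    (isOpen_lt Complex.continuous_im continuous_const))

theorem D_bdd (R : Rect) : ∃ M : ℕ, ∀ z ∈ R.D, |z.re| < M ∧ |z.im| < M := by
  obtain ⟨M, hM⟩ := exists_nat_gt (R.A + R.B + R.H)
  refine ⟨M, fun z hz => ?_⟩
  obtain ⟨h1, h2, h3, h4⟩ := hz
  have hA := R.hA
  have hB := R.hB
  have hH := R.hH
  constructor
  · rw [abs_lt]
    constructor <;> linarith
  · rw [abs_lt]
    constructor <;> linarith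

/-- DP-LIMU -/
theorem limU : St_limU := by
  intro hU hA hD R δ hδ hδ0 μ hμ η hη
  obtain ⟨C, hC, δ0, hd0, hP⟩ := prob_le hU hA hD R
  obtain ⟨M, hM⟩ := D_bdd R
  set dn : ℕ → ℝ := fun n => min η (1 / ((n : ℝ) + 1)) with hdn
  have hdn0 : ∀ n, 0 < dn n := fun n => lt_min hη (by positivity)
  have h1 : ∀ n j : ℕ, ∀ᵐ p ∂(μ : Measure X),
      dimH (DPt η p.1 ∩ H934F.t10_A R.D (dn n)) ≤
        ENNReal.ofReal (3 / 4 + 1 / ((j : ℝ) + 1)) := by
    intro n j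
    have hj : 0 < 1 / ((j : ℝ) + 1) := by positivity
    refine one_scale hM hC (hdn0 n) (min_le_left _ _) hμ ?_ (by linarith)
    intro z r hr hrd hb
    have hev : ∀ᶠ i in atTop, δ i < min r δ0 := hδ0.eventually_lt_const (lt_min hr hd0)
    filter_upwards [hev] with i hi
    exact hP z r (dn n) (δ i) hr hrd hb (hδ i) (hi.le.trans (min_le_left _ _))
      (hi.le.trans (min_le_right _ _))
  have h2 : ∀ᵐ p ∂(μ : Measure X), ∀ n j : ℕ,
      dimH (DPt η p.1 ∩ H934F.t10_A R.D (dn n)) ≤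
        ENNReal.ofReal (3 / 4 + 1 / ((j : ℝ) + 1)) := by
    rw [ae_all_iff]
    intro n
    rw [ae_all_iff]
    intro j
    exact h1 n j
  filter_upwards [h2] with p hp
  have hsub : DPt η p.1 ∩ R.D ⊆ ⋃ n : ℕ, DPt η p.1 ∩ H934F.t10_A R.D (dn n) := by
    rintro z ⟨hzK, hzD⟩
    obtain ⟨ε, hε, hb⟩ := Metric.isOpen_iff.mp (D_open R) z hzD
    obtain ⟨n, hn⟩ := exists_nat_one_div_lt hε
    exact Set.mem_iUnion.mpr ⟨n, hzK,
      (Metric.ball_subset_ball ((min_le_right _ _).trans hn.le)).trans hb⟩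
  refine (dimH_mono hsub).trans ?_
  rw [dimH_iUnion]
  refine iSup_le fun n => ?_
  have hlim : Tendsto (fun j : ℕ => ENNReal.ofReal (3 / 4 + 1 / ((j : ℝ) + 1))) atTop
      (𝓝 (ENNReal.ofReal (3 / 4 + 0))) :=
    ENNReal.tendsto_ofReal (tendsto_const_nhds.add tendsto_one_div_add_atTop_nhds_zero_nat)
  have h74 : ENNReal.ofReal (3 / 4 + 0) = 3 / 4 := by
    rw [add_zero, ENNReal.ofReal_div_of_pos (by norm_num)]
    norm_num
  rw [h74] at hlim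
  exact ge_of_tendsto' hlim (fun j => hp n j)

end Pool.Agent.W462.DPL
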